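import Pool.Agent.Helper386.FF.Div

set_option autoImplicit false
set_option linter.all false

open Module

namespace FFT

theorem isFF_adjoin {R Om M : Type*} [Field R] [Field Om] [Field M] [Algebra R Om] [Algebra R M] [Algebra Om M]
    [IsScalarTower R Om M] [Algebra.IsAlgebraic R Om] [FF.IsFF Om M] (T : Set M) (hT : T.Finite) (ξ : M)
    (hξT : ξ ∈ IntermediateField.adjoin R T) (hξ : Transcendental Om ξ) :
    FF.IsFF R (IntermediateField.adjoin R T) := by
  have htr : Algebra.trdeg R M = 1 := by
    have h1 := _root_.lift_trdeg_add_eq R Om M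
    rw [_root_.trdeg_eq_zero, FF.IsFF.trdeg (k := Om) (K := M)] at h1
    simpa using h1.symm
  refine ⟨?_, le_antisymm ?_ ?_⟩
  · rw [IntermediateField.essFiniteType_iff]
    exact IntermediateField.fg_adjoin_of_finite hT
  · rw [← htr]
    exact _root_.trdeg_le_of_injective (IntermediateField.val _) Subtype.val_injective
  · have h2 : Transcendental R (⟨ξ, hξT⟩ : IntermediateField.adjoin R T) := by
      intro h
      have h3 : IsAlgebraic R ξ := h.algebraMap
      exact hξ (h3.tower_top Om)
    have h3 : AlgebraicIndependent R (fun _ : Unit => (⟨ξ, hξT⟩ : IntermediateField.adjoin R T)) := by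
      rw [algebraicIndependent_unique_type_iff]
      exact h2
    have h4 := h3.lift_cardinalMk_le_trdeg
    simpa using h4

end FFT
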